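import Pool.Agent.FS.RotorSym.Fin

set_option autoImplicit false

open Pool.Agent.Lib.MP_9d2e01_pr in
/-- Independent initial rotors whose common law gives the same mass to north and south and the
same mass to east and west: almost surely the rotor walk started at the origin visits every site
at arbitrarily late times. -/
theorem Pool.Agent.Results.MP_9d2e01_pr.SymmetricLaws.result
    (ν : MeasureTheory.Measure (Fin 4)) [MeasureTheory.IsProbabilityMeasure ν]
    (h1 : ν {0} = ν {2}) (h2 : ν {1} = ν {3}) :
    ∀ᵐ ρ ∂(MeasureTheory.Measure.infinitePi (fun _ : ℤ × ℤ => ν)),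
      ∀ (x : ℤ × ℤ) (T : ℕ), ∃ t : ℕ, T ≤ t ∧ walk ρ t = x :=
  (Pool.Agent.FS.RotorSym.ae_allFinN ν h1 h2).mono fun _ h => h.recurrent
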