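import Pool.Agent.Lib.MP_9d2e01_pr.Two.Final

set_option autoImplicit false

open Pool.Agent.Lib.MP_9d2e01_pr in
/-- Independent initial rotors whose common law gives mass more than one third to north and to
south and little mass to east and west: the range has exponent at most two thirds. -/
theorem Pool.Agent.Results.MP_9d2e01_pr.VerticalLaws.result (p : ℝ) (hp : 1 / 3 < p) :
    ∃ ε : ℝ, 0 < ε ∧ ∀ (ν : MeasureTheory.Measure (Fin 4)) [MeasureTheory.IsProbabilityMeasure ν],
      p ≤ ν.real {0} → p ≤ ν.real {2} → ν.real {1} + ν.real {3} ≤ ε →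
      ∀ᵐ ρ ∂(MeasureTheory.Measure.infinitePi (fun _ : ℤ × ℤ => ν)),
        ∃ C : ℝ, ∀ n : ℕ, 2 ≤ n →
          ((((Finset.range (n + 1)).image (walk ρ)).card : ℕ) : ℝ) ≤
            C * (n : ℝ) ^ (2 / 3 : ℝ) * Real.log n ^ 6 := by
  obtain ⟨ε, h1, r, h2, h3⟩ := criterion p hp
  exact ⟨ε, h1, fun ν _ a b c => range_of_criterion ν h2 (h3 ν a b c)⟩
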